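import Mathlib

set_option autoImplicit false

namespace Pool.Agent.Results.MP_816335_an.NoSyndetic

open Set

universe u

/-- topological transitivity. -/
def TopTrans {X : Type u} [TopologicalSpace X] (T : X → X) : Prop :=
  ∀ U V : Set X, IsOpen U → IsOpen V → U.Nonempty → V.Nonempty →
    ∃ n : ℕ, 1 ≤ n ∧ (U ∩ T^[n] ⁻¹' V).Nonempty

/-- `S` is a weak interpolation set of order `k` for totally transitive systems. -/
def WeakInterpTT (k : ℕ) (S : Set ℕ) : Prop :=
  ∀ f : S → Fin k, ∃ (X : Type u) (_ : MetricSpace X) (_ : CompactSpace X)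
    (T : X → X) (x : X) (F : X → ℂ),
    Continuous T ∧ (∀ m : ℕ, 1 ≤ m → TopTrans T^[m]) ∧ DenseRange (fun n : ℕ => T^[n] x) ∧
      Continuous F ∧ ∀ n : S, F (T^[n] x) = ((f n : ℕ) : ℂ)

/-- `S` has bounded gaps. -/
def Syndetic (S : Set ℕ) : Prop := ∃ L : ℕ, ∀ n : ℕ, 1 ≤ n → ∃ s ∈ S, n ≤ s ∧ s ≤ n + L

lemma dense_res {X : Type u} [MetricSpace X] [CompactSpace X] {T : X → X} (hT : Continuous T)
    (hTT : ∀ m : ℕ, 1 ≤ m → TopTrans T^[m]) {x : X} (hx : DenseRange (fun n : ℕ => T^[n] x))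
    {q : ℕ} (hq : 0 < q) {a : ℕ} (ha : q ≤ a) : DenseRange fun k : ℕ => T^[a + q * k] x := by
  haveI : Nonempty X := ⟨x⟩
  have hsurj : ∀ m, DenseRange T^[m] := by
    have h1 : DenseRange T := by
      rw [DenseRange, dense_iff_inter_open]
      intro V hV hne
      obtain ⟨n, hn, y, -, hy⟩ := hTT 1 le_rfl univ V isOpen_univ hV univ_nonempty hne
      obtain ⟨n, rfl⟩ : ∃ n', n = n' + 1 := ⟨n - 1, by omega⟩
      simp only [Function.iterate_one, mem_preimage, Function.iterate_succ_apply'] at hy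
      exact ⟨_, hy, _, rfl⟩
    intro m
    induction m with
    | zero => exact denseRange_id
    | succ m ih => rw [Function.iterate_succ']; exact h1.comp ih hT
  let O : Fin q → Set X := fun r => closure (range fun k : ℕ => T^[r + q * k] x)
  have hcov : ⋃ r, O r = univ := by
    refine eq_univ_of_univ_subset ?_
    rw [← hx.closure_range]
    refine closure_minimal ?_ (isClosed_iUnion_of_finite fun r => isClosed_closure)
    rintro _ ⟨n, rfl⟩
    refine mem_iUnion.2 ⟨⟨n % q, Nat.mod_lt _ hq⟩, subset_closure ⟨n / q, ?_⟩⟩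
    simp only [Nat.mod_add_div]
  obtain ⟨r, hr⟩ := nonempty_interior_of_iUnion_of_closed (fun r => isClosed_closure) hcov
  have hinv : MapsTo T^[q] (O r) (O r) := by
    refine MapsTo.closure ?_ (hT.iterate q)
    rintro _ ⟨k, rfl⟩
    refine ⟨k + 1, ?_⟩
    simp only
    rw [← Function.iterate_add_apply]
    congr 1; ring
  have hd : DenseRange fun k : ℕ => T^[r + q * k] x := by
    rw [DenseRange, ← dense_closure, dense_iff_inter_open]
    intro V hV hne
    obtain ⟨n, -, y, hy1, hy2⟩ := hTT q hq _ V isOpen_interior hV hr hne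
    exact ⟨_, hy2, hinv.iterate n (interior_subset hy1)⟩
  have := (hsurj (a - r)).comp hd (hT.iterate _)
  convert this using 1
  funext k
  simp only [Function.comp]
  rw [← Function.iterate_add_apply]
  congr 1
  have := r.2
  omega

theorem result (S : Set ℕ) (hS : Syndetic S) : ¬ WeakInterpTT.{u} 2 S := by
  classical
  intro hW
  obtain ⟨L, hL⟩ := hS
  obtain ⟨m, ⟨e⟩⟩ := Finite.exists_equiv_fin (Fin (L + 1) → Fin 2)
  have hm : 0 < m := (e fun _ => 0).pos
  let g : ℕ → Fin 2 := fun n =>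
    e.symm ⟨(n / (L + 1)) % m, Nat.mod_lt _ hm⟩ ⟨n % (L + 1), Nat.mod_lt _ (by omega)⟩
  obtain ⟨X, _, _, T, x, F, hT, hTT, hx, hF, hf⟩ := hW fun n => g n
  let w : Fin (L + 1) → Fin 2 := fun j => if F (T^[j] x) = 0 then 1 else 0
  let C : Set X := ⋃ j : Fin (L + 1), {y | F (T^[j] y) = ((w j : ℕ) : ℂ)}
  have hC : IsClosed C := isClosed_iUnion_of_finite fun j =>
    isClosed_eq (hF.comp (hT.iterate j)) continuous_const
  have hq : 0 < (L + 1) * m := by positivity
  have hd := dense_res hT hTT hx hq (a := (L + 1) * (e w) + (L + 1) * m) (by omega)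
  have hxC : x ∈ C := by
    refine closure_minimal ?_ hC (hd x)
    rintro _ ⟨k, rfl⟩
    obtain ⟨s, hs, h1, h2⟩ := hL ((L + 1) * (e w) + (L + 1) * m + (L + 1) * m * k) (by omega)
    obtain ⟨j, rfl⟩ := Nat.exists_eq_add_of_le h1
    have hj : j < L + 1 := by omega
    refine mem_iUnion.2 ⟨⟨j, hj⟩, ?_⟩
    change F (T^[j] (T^[_] x)) = _
    rw [← Function.iterate_add_apply, add_comm j, hf ⟨_, hs⟩]
    have e0 : (L + 1) * (e w) + (L + 1) * m + (L + 1) * m * k + j =
        j + (L + 1) * (e w + m * (1 + k)) := by ring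
    have e1 : ((L + 1) * (e w) + (L + 1) * m + (L + 1) * m * k + j) % (L + 1) = j := by
      rw [e0, Nat.add_mul_mod_self_left, Nat.mod_eq_of_lt hj]
    have e2 : ((L + 1) * (e w) + (L + 1) * m + (L + 1) * m * k + j) / (L + 1) % m = e w := by
      rw [e0, Nat.add_mul_div_left _ _ (by omega), Nat.div_eq_of_lt hj, zero_add,
        Nat.add_mul_mod_self_left, Nat.mod_eq_of_lt (e w).2]
    simp only [g, e1, e2, Fin.eta, Equiv.symm_apply_apply]
  obtain ⟨j, hj⟩ := mem_iUnion.1 hxC
  simp only [mem_setOf_eq, w] at hj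
  by_cases h0 : F (T^[j] x) = 0
  · simp [h0] at hj
  · simp [h0] at hj

end Pool.Agent.Results.MP_816335_an.NoSyndetic
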